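import Pool.Agent.Q145.LS.Stm
import Pool.Agent.Q261.SZ.HS

/-!
# Project LS, job HSB: powers of the pair singular series, weighted by primes
-/

set_option autoImplicit false

namespace Pool.Agent.Q18.LS

open Finset Filter
open Pool.Agent.Q145.SZ Pool.Agent.Q145.LS Pool.Agent.Q261.SZ

theorem wt_nn (n : ℕ) : 0 ≤ wt n := by
  unfold wt
  split_ifs with h
  · exact Real.log_nonneg (by exact_mod_cast h.one_lt.le)
  · exact le_rfl

theorem wt_le2 {X n : ℕ} (hX : 2 ≤ X) (hn : n ∈ Ioc X (2 * X)) : wt n ≤ 2 * Real.log X := by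
  rw [mem_Ioc] at hn
  have hX0 : (2 : ℝ) ≤ X := by exact_mod_cast hX
  have hL : 0 ≤ Real.log X := Real.log_nonneg (by linarith)
  unfold wt
  split_ifs with h
  · have h1 : Real.log n ≤ Real.log (2 * X) :=
      Real.log_le_log (by exact_mod_cast h.pos) (by exact_mod_cast hn.2)
    rw [Real.log_mul two_ne_zero (by linarith)] at h1
    have h2 : Real.log 2 ≤ Real.log X := Real.log_le_log two_pos hX0
    linarith
  · linarith

theorem gg_le3 {K p : ℕ} (hp : 6 ≤ p) (hK : 8 * K ≤ p) : gg K p ≤ 2 * K / p := by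
  have h5 : (6 : ℝ) ≤ p := by exact_mod_cast hp
  have hKr : 8 * (K : ℝ) ≤ p := by exact_mod_cast hK
  have hK0 : (0 : ℝ) ≤ K := Nat.cast_nonneg _
  have h := gg_le (K := K) (p := p) (by omega) (by omega)
  refine h.trans ?_
  obtain ⟨q, hq⟩ : ∃ q : ℝ, q = (p : ℝ) - 2 := ⟨_, rfl⟩
  have hp' : (p : ℝ) = q + 2 := by linarith
  rw [← hq, hp']
  have hq4 : 4 ≤ q := by linarith
  have hKq : 8 * (K : ℝ) ≤ q + 2 := by linarith
  have hq0 : 0 < q := by linarith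
  have e : (K : ℝ) / q + (K : ℝ) ^ 2 / q ^ 2 = K * (q + K) / q ^ 2 := by
    field_simp
  rw [e, div_le_div_iff₀ (by positivity) (by positivity)]
  have h1 : (q + K) * (q + 2) ≤ 2 * q ^ 2 := by nlinarith
  calc (K : ℝ) * (q + K) * (q + 2) = K * ((q + K) * (q + 2)) := by ring
    _ ≤ K * (2 * q ^ 2) := by gcongr
    _ = 2 * K * q ^ 2 := by ring

/-- the sum over the pairs with difference divisible by `e` -/
noncomputable def SE {W : ℕ} [NeZero W] (X : ℕ) (c d : ZMod W) (e : ℕ) : ℝ :=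
  ∑ n ∈ (Ioc X (2 * X)).filter (fun n : ℕ => (n : ZMod W) = c),
    ∑ m ∈ (Ioc X (2 * X)).filter (fun m : ℕ => (m : ZMod W) = d ∧ m ≠ n),
      wt n * wt m * (if e ∣ dst n m then 1 else 0)

theorem SE_one {W : ℕ} [NeZero W] (X : ℕ) (c d : ZMod W) : SE X c d 1 ≤ th X c * th X d := by
  unfold SE th
  rw [sum_mul]
  refine sum_le_sum fun n _ => ?_
  rw [mul_sum]
  have h1 : ∑ m ∈ (Ioc X (2 * X)).filter (fun m : ℕ => (m : ZMod W) = d ∧ m ≠ n),
      wt n * wt m * (if 1 ∣ dst n m then (1 : ℝ) else 0) =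
      ∑ m ∈ (Ioc X (2 * X)).filter (fun m : ℕ => (m : ZMod W) = d ∧ m ≠ n), wt n * wt m :=
    sum_congr rfl fun m _ => by rw [if_pos (one_dvd _), mul_one]
  rw [h1]
  refine sum_le_sum_of_subset_of_nonneg (fun m hm => ?_) fun m _ _ => mul_nonneg (wt_nn n) (wt_nn m)
  rw [mem_filter] at hm ⊢
  exact ⟨hm.1, hm.2.1⟩

theorem SP_le (z X K h : ℕ) (hz : 2 ≤ z) :
    SP z X h ^ K ≤ ∑ E ∈ ((Ioc z X).filter Nat.Prime).powerset,
        if (∏ p ∈ E, p) ∣ h then ∏ p ∈ E, gg K p else 0 := by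
  rw [SP_pow z X K h hz]
  have hPm : ∀ p ∈ (Ioc z X).filter Nat.Prime, 3 ≤ p := by
    intro p hp
    rw [mem_filter, mem_Ioc] at hp
    omega
  have hc1 : (∏ p ∈ (Ioc z X).filter Nat.Prime, cc p) ^ K ≤ 1 := by
    refine pow_le_one₀ (prod_nonneg fun p hp => (cc_pos (by have := hPm p hp; omega)).le) ?_
    refine prod_le_one (fun p hp => (cc_pos (by have := hPm p hp; omega)).le) fun p _ => ?_
    unfold cc
    have : 0 ≤ 1 / ((p : ℝ) - 1) ^ 2 := by positivity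
    linarith
  refine mul_le_of_le_one_left (sum_nonneg fun E hE => ?_) hc1
  split_ifs
  · exact prod_nonneg fun p hp => gg_nonneg (hPm p (mem_powerset.1 hE hp))
  · exact le_rfl

theorem total_le {W : ℕ} [NeZero W] (z X K : ℕ) (hz : 2 ≤ z) (c d : ZMod W) :
    ∑ n ∈ (Ioc X (2 * X)).filter (fun n : ℕ => (n : ZMod W) = c),
      ∑ m ∈ (Ioc X (2 * X)).filter (fun m : ℕ => (m : ZMod W) = d ∧ m ≠ n),
        wt n * wt m * SP z X (dst n m) ^ K ≤
      ∑ E ∈ ((Ioc z X).filter Nat.Prime).powerset, (∏ p ∈ E, gg K p) * SE X c d (∏ p ∈ E, p) := by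
  calc _ ≤ ∑ n ∈ (Ioc X (2 * X)).filter (fun n : ℕ => (n : ZMod W) = c),
      ∑ m ∈ (Ioc X (2 * X)).filter (fun m : ℕ => (m : ZMod W) = d ∧ m ≠ n),
        ∑ E ∈ ((Ioc z X).filter Nat.Prime).powerset, (∏ p ∈ E, gg K p) *
          (wt n * wt m * (if (∏ p ∈ E, p) ∣ dst n m then 1 else 0)) := by
        refine sum_le_sum fun n _ => sum_le_sum fun m _ => ?_
        refine (mul_le_mul_of_nonneg_left (SP_le z X K (dst n m) hz)
          (mul_nonneg (wt_nn n) (wt_nn m))).trans (le_of_eq ?_)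
        rw [mul_sum]
        refine sum_congr rfl fun E _ => ?_
        split_ifs
        · ring
        · ring
    _ = ∑ n ∈ (Ioc X (2 * X)).filter (fun n : ℕ => (n : ZMod W) = c),
        ∑ E ∈ ((Ioc z X).filter Nat.Prime).powerset,
      ∑ m ∈ (Ioc X (2 * X)).filter (fun m : ℕ => (m : ZMod W) = d ∧ m ≠ n), (∏ p ∈ E, gg K p) *
          (wt n * wt m * (if (∏ p ∈ E, p) ∣ dst n m then 1 else 0)) :=
        sum_congr rfl fun n _ => sum_comm
    _ = _ := by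
        rw [sum_comm]
        refine sum_congr rfl fun E _ => ?_
        unfold SE
        simp only [mul_sum]

/-- small moduli -/
theorem SE_small {W : ℕ} [NeZero W] (X e : ℕ) (B : ℝ) (he : 0 < e) (hWe : W.Coprime e)
    (hB : ∀ q : ℕ, 1 ≤ q → q ^ 2 ≤ X → ∀ r : ℕ,
      ∑ n ∈ (Ioc X (2 * X)).filter (fun n : ℕ => n ≡ r [MOD q]), wt n ≤ B * X / Nat.totient q)
    (hB0 : 0 ≤ B) (hX : (W * e) ^ 2 ≤ X) (c d : ZMod W) :
    SE X c d e ≤ B ^ 2 * ((X : ℝ) / Nat.totient W) ^ 2 * (1 / Nat.totient e) := by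
  have hW0 : 0 < W := Nat.pos_of_ne_zero (NeZero.ne W)
  have hin : ∀ n : ℕ, ∑ m ∈ (Ioc X (2 * X)).filter (fun m : ℕ => (m : ZMod W) = d ∧ m ≠ n),
      wt m * (if e ∣ dst n m then 1 else 0) ≤ B * X / Nat.totient (W * e) := by
    intro n
    have e1 : ∑ m ∈ (Ioc X (2 * X)).filter (fun m : ℕ => (m : ZMod W) = d ∧ m ≠ n),
      wt m * (if e ∣ dst n m then 1 else 0) = ∑ m ∈ ((Ioc X (2 * X)).filter
        (fun m : ℕ => (m : ZMod W) = d ∧ m ≠ n)).filter (fun m => e ∣ dst n m), wt m := by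
      rw [sum_filter (fun m => e ∣ dst n m)]
      refine sum_congr rfl fun m _ => ?_
      split_ifs
      · rw [mul_one]
      · rw [mul_zero]
    rw [e1]
    rcases (((Ioc X (2 * X)).filter (fun m : ℕ => (m : ZMod W) = d ∧ m ≠ n)).filter
      (fun m => e ∣ dst n m)).eq_empty_or_nonempty with h0 | ⟨m₀, hm₀⟩
    · rw [h0, sum_empty]
      positivity
    · refine le_trans (sum_le_sum_of_subset_of_nonneg ?_ fun m _ _ => wt_nn m)
        (hB (W * e) (Nat.mul_pos hW0 he) hX m₀)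
      intro m hm
      rw [mem_filter, mem_filter, dvd_dst] at hm hm₀
      rw [mem_filter]
      refine ⟨hm.1.1, ?_⟩
      rw [← Nat.modEq_and_modEq_iff_modEq_mul hWe]
      refine ⟨?_, hm.2.symm.trans hm₀.2⟩
      rw [← ZMod.natCast_eq_natCast_iff, hm.1.2.1, hm₀.1.2.1]
  have hout : ∑ n ∈ (Ioc X (2 * X)).filter (fun n : ℕ => (n : ZMod W) = c), wt n ≤
      B * X / Nat.totient W := by
    rcases ((Ioc X (2 * X)).filter (fun n : ℕ => (n : ZMod W) = c)).eq_empty_or_nonempty with h0 | ⟨m₀, hm₀⟩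
    · rw [h0, sum_empty]
      positivity
    · have h2 : W ^ 2 ≤ X := by
        refine le_trans ?_ hX
        exact Nat.pow_le_pow_left (Nat.le_mul_of_pos_right W he) 2
      refine le_trans (sum_le_sum_of_subset_of_nonneg ?_ fun m _ _ => wt_nn m)
        (hB W hW0 h2 m₀)
      intro m hm
      rw [mem_filter] at hm hm₀ ⊢
      refine ⟨hm.1, ?_⟩
      rw [← ZMod.natCast_eq_natCast_iff, hm.2, hm₀.2]
  unfold SE
  calc _ = ∑ n ∈ (Ioc X (2 * X)).filter (fun n : ℕ => (n : ZMod W) = c), wt n *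
      ∑ m ∈ (Ioc X (2 * X)).filter (fun m : ℕ => (m : ZMod W) = d ∧ m ≠ n),
      wt m * (if e ∣ dst n m then 1 else 0) := by
        refine sum_congr rfl fun n _ => ?_
        rw [mul_sum]
        refine sum_congr rfl fun m _ => ?_
        ring
    _ ≤ ∑ n ∈ (Ioc X (2 * X)).filter (fun n : ℕ => (n : ZMod W) = c), wt n *
      (B * X / Nat.totient (W * e)) := sum_le_sum fun n _ =>
        mul_le_mul_of_nonneg_left (hin n) (wt_nn n)
    _ = (∑ n ∈ (Ioc X (2 * X)).filter (fun n : ℕ => (n : ZMod W) = c), wt n) *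
      (B * X / Nat.totient (W * e)) := by rw [sum_mul]
    _ ≤ (B * X / Nat.totient W) * (B * X / Nat.totient (W * e)) := by gcongr
    _ = _ := by
        rw [Nat.totient_mul hWe]
        have h1 : (Nat.totient W : ℝ) ≠ 0 := by exact_mod_cast (Nat.totient_pos.2 hW0).ne'
        have h2 : (Nat.totient e : ℝ) ≠ 0 := by exact_mod_cast (Nat.totient_pos.2 he).ne'
        push_cast
        field_simp

/-- large moduli -/
theorem SE_large {W : ℕ} [NeZero W] (X e : ℕ) (he : 0 < e) (hWe : W.Coprime e) (hX2 : 2 ≤ X)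
    (c d : ZMod W) :
    SE X c d e ≤ 4 * Real.log X ^ 2 * (((X : ℝ) / W + 1) * ((X : ℝ) / (W * e) + 1)) := by
  have hW0 : 0 < W := Nat.pos_of_ne_zero (NeZero.ne W)
  have hL : 0 ≤ Real.log X := Real.log_nonneg (by exact_mod_cast (show 1 ≤ X by omega))
  have hcard1 : (((Ioc X (2 * X)).filter (fun n : ℕ => (n : ZMod W) = c)).card : ℝ) ≤
      (X : ℝ) / W + 1 := by
    refine cnt_le X W hW0 _ (filter_subset _ _) fun a ha b hb => ?_
    rw [mem_filter] at ha hb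
    rw [← ZMod.natCast_eq_natCast_iff, ha.2, hb.2]
  have hin : ∀ n ∈ (Ioc X (2 * X)).filter (fun n : ℕ => (n : ZMod W) = c),
      ∑ m ∈ (Ioc X (2 * X)).filter (fun m : ℕ => (m : ZMod W) = d ∧ m ≠ n),
      wt n * wt m * (if e ∣ dst n m then 1 else 0) ≤
        4 * Real.log X ^ 2 * ((X : ℝ) / (W * e) + 1) := by
    intro n hn
    have h2 : ((((Ioc X (2 * X)).filter (fun m : ℕ => (m : ZMod W) = d ∧ m ≠ n)).filter
        fun m => e ∣ dst n m).card : ℝ) ≤ X / (W * e : ℕ) + 1 := by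
      refine cnt_le X (W * e) (Nat.mul_pos hW0 he) _
        ((filter_subset _ _).trans (filter_subset _ _)) fun a ha b hb => ?_
      rw [mem_filter, mem_filter, dvd_dst] at ha hb
      rw [← Nat.modEq_and_modEq_iff_modEq_mul hWe]
      refine ⟨?_, ha.2.symm.trans hb.2⟩
      rw [← ZMod.natCast_eq_natCast_iff, ha.1.2.1, hb.1.2.1]
    calc _ ≤ ∑ m ∈ (Ioc X (2 * X)).filter (fun m : ℕ => (m : ZMod W) = d ∧ m ≠ n),
      (if e ∣ dst n m then 4 * Real.log X ^ 2 else 0) := by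
          refine sum_le_sum fun m hm => ?_
          split_ifs
          · have h3 := wt_le2 hX2 (mem_filter.1 hn).1
            have h4 := wt_le2 hX2 (mem_filter.1 hm).1
            have h5 := wt_nn n
            have h6 := wt_nn m
            nlinarith
          · rw [mul_zero]
      _ = ((((Ioc X (2 * X)).filter (fun m : ℕ => (m : ZMod W) = d ∧ m ≠ n)).filter
        fun m => e ∣ dst n m).card : ℝ) * (4 * Real.log X ^ 2) := by
          rw [← sum_filter, sum_const, nsmul_eq_mul]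
      _ ≤ (X / (W * e : ℕ) + 1) * (4 * Real.log X ^ 2) := by gcongr
      _ = _ := by
          push_cast
          ring
  unfold SE
  refine (sum_le_card_nsmul _ _ _ hin).trans ?_
  rw [nsmul_eq_mul]
  calc _ ≤ ((X : ℝ) / W + 1) * (4 * Real.log X ^ 2 * ((X : ℝ) / (W * e) + 1)) := by gcongr
    _ = _ := by ring

theorem totient_prod (E : Finset ℕ) (hE : ∀ p ∈ E, p.Prime) :
    Nat.totient (∏ p ∈ E, p) = ∏ p ∈ E, (p - 1) := by
  classical
  induction E using Finset.induction_on with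
  | empty => simp
  | insert a s ha ih =>
    rw [prod_insert ha, prod_insert ha, Nat.totient_mul, ih fun p hp => hE p (mem_insert_of_mem hp),
      Nat.totient_prime (hE a (mem_insert_self _ _))]
    refine Nat.Coprime.prod_right fun p hp => ?_
    refine (Nat.coprime_primes (hE a (mem_insert_self _ _)) (hE p (mem_insert_of_mem hp))).2 ?_
    rintro rfl
    exact ha hp

theorem PW_coprime (z : ℕ) : ∀ p : ℕ, p.Prime → z < p → (PW z).Coprime p := by
  intro p hp hzp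
  unfold PW
  refine Nat.Coprime.prod_left fun q hq => ?_
  rw [mem_filter, mem_Icc] at hq
  exact (Nat.coprime_primes hq.2 hp).2 (by omega)

theorem F1 {C' : ℝ} (z X K : ℕ) (hz : 6 ≤ z) (hK : 8 * K ≤ z) (hC' : C' ≤ Real.log z)
    (hSQ : ∑ p ∈ (Ioc z X).filter Nat.Prime, 1 / (p : ℝ) ^ 2 ≤ C' / ((z : ℝ) * Real.log z)) :
    ∏ p ∈ (Ioc z X).filter Nat.Prime, (1 + gg K p / ((p : ℝ) - 1)) - 1 ≤ C' / Real.log z := by
  have hPm : ∀ p ∈ (Ioc z X).filter Nat.Prime, 6 ≤ p ∧ 8 * K ≤ p := by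
    intro p hp
    rw [mem_filter, mem_Ioc] at hp
    omega
  have hz0 : (6 : ℝ) ≤ z := by exact_mod_cast hz
  have hlog : 0 < Real.log z := Real.log_pos (by linarith)
  have hKr : 8 * (K : ℝ) ≤ z := by exact_mod_cast hK
  have hK0 : (0 : ℝ) ≤ K := Nat.cast_nonneg _
  set x : ℝ := ∑ p ∈ (Ioc z X).filter Nat.Prime, 4 * (K : ℝ) * (1 / (p : ℝ) ^ 2) with hx
  have hx0 : 0 ≤ x := sum_nonneg fun p _ => by positivity
  have hsum0 : 0 ≤ ∑ p ∈ (Ioc z X).filter Nat.Prime, 1 / (p : ℝ) ^ 2 :=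
    sum_nonneg fun _ _ => by positivity
  have hx1 : x ≤ C' / Real.log z / 2 := by
    rw [hx, ← mul_sum]
    calc 4 * (K : ℝ) * ∑ p ∈ (Ioc z X).filter Nat.Prime, 1 / (p : ℝ) ^ 2 ≤
          ((z : ℝ) / 2) * (C' / ((z : ℝ) * Real.log z)) :=
            mul_le_mul (by linarith) hSQ hsum0 (by positivity)
      _ = _ := by field_simp
  have hx2 : x ≤ 1 := by
    have : C' / Real.log z ≤ 1 := (div_le_one hlog).2 hC'
    linarith
  have h1 : ∏ p ∈ (Ioc z X).filter Nat.Prime, (1 + gg K p / ((p : ℝ) - 1)) ≤ Real.exp x := by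
    rw [hx, Real.exp_sum]
    refine prod_le_prod (fun p hp => ?_) fun p hp => ?_
    · have h6 : (6 : ℝ) ≤ p := by exact_mod_cast (hPm p hp).1
      have := gg_nonneg (K := K) (p := p) (by have := (hPm p hp).1; omega)
      have h7 : 0 < (p : ℝ) - 1 := by linarith
      positivity
    · have h6 : (6 : ℝ) ≤ p := by exact_mod_cast (hPm p hp).1
      have h7 : 0 < (p : ℝ) - 1 := by linarith
      have h8 := gg_le3 (hPm p hp).1 (hPm p hp).2
      have h9 : gg K p / ((p : ℝ) - 1) ≤ 4 * (K : ℝ) * (1 / (p : ℝ) ^ 2) := by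
        calc gg K p / ((p : ℝ) - 1) ≤ (2 * K / p) / ((p : ℝ) - 1) := by gcongr
          _ ≤ (2 * K / p) / ((p : ℝ) / 2) := by
              gcongr
              linarith
          _ = _ := by field_simp; ring
      have h10 := Real.add_one_le_exp (4 * (K : ℝ) * (1 / (p : ℝ) ^ 2))
      linarith
  have h2 := exp_quad hx0 hx2
  nlinarith

theorem F2 {C' : ℝ} (z X K : ℕ) (hz : 6 ≤ z) (hK : 8 * K ≤ z) (hC0 : 0 < C')
    (hSQ : ∑ p ∈ (Ioc z X).filter Nat.Prime, 1 / ((p : ℝ) * √p) ≤ C' / √z) :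
    ∏ p ∈ (Ioc z X).filter Nat.Prime, (1 + gg K p / √(p : ℝ)) ≤ Real.exp (C' * z) := by
  have hPm : ∀ p ∈ (Ioc z X).filter Nat.Prime, 6 ≤ p ∧ 8 * K ≤ p := by
    intro p hp
    rw [mem_filter, mem_Ioc] at hp
    omega
  have hz0 : (6 : ℝ) ≤ z := by exact_mod_cast hz
  have hKr : 8 * (K : ℝ) ≤ z := by exact_mod_cast hK
  have hK0 : (0 : ℝ) ≤ K := Nat.cast_nonneg _
  have hsum0 : 0 ≤ ∑ p ∈ (Ioc z X).filter Nat.Prime, 1 / ((p : ℝ) * √p) :=
    sum_nonneg fun _ _ => by positivity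
  have h1 : ∏ p ∈ (Ioc z X).filter Nat.Prime, (1 + gg K p / √(p : ℝ)) ≤
      Real.exp (∑ p ∈ (Ioc z X).filter Nat.Prime, 2 * (K : ℝ) * (1 / ((p : ℝ) * √p))) := by
    rw [Real.exp_sum]
    refine prod_le_prod (fun p hp => ?_) fun p hp => ?_
    · have := gg_nonneg (K := K) (p := p) (by have := (hPm p hp).1; omega)
      positivity
    · have h6 : (6 : ℝ) ≤ p := by exact_mod_cast (hPm p hp).1
      have h8 := gg_le3 (hPm p hp).1 (hPm p hp).2
      have hs : 0 < √(p : ℝ) := Real.sqrt_pos.2 (by linarith)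
      have h9 : gg K p / √(p : ℝ) ≤ 2 * (K : ℝ) * (1 / ((p : ℝ) * √p)) := by
        calc gg K p / √(p : ℝ) ≤ (2 * K / p) / √(p : ℝ) := by gcongr
          _ = _ := by field_simp
      have h10 := Real.add_one_le_exp (2 * (K : ℝ) * (1 / ((p : ℝ) * √p)))
      linarith
  refine h1.trans (Real.exp_le_exp.2 ?_)
  rw [← mul_sum]
  have hs1 : 1 ≤ √(z : ℝ) := by
    rw [Real.one_le_sqrt]
    linarith
  calc 2 * (K : ℝ) * ∑ p ∈ (Ioc z X).filter Nat.Prime, 1 / ((p : ℝ) * √p) ≤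
        (z : ℝ) * (C' / √z) := mul_le_mul (by linarith) hSQ hsum0 (by positivity)
    _ ≤ (z : ℝ) * (C' / 1) := by gcongr
    _ = _ := by ring

theorem F3 {C₂ : ℝ} (z X K : ℕ) (hz : 4 ≤ z) (hC₂ :
    ∑ p ∈ (Icc 1 X).filter Nat.Prime, 1 / (p : ℝ) ≤ Real.log (Real.log X) + C₂)
    (hC : C₂ ≤ Real.log (Real.log X)) (hL : 1 ≤ Real.log X) :
      ∏ p ∈ (Ioc z X).filter Nat.Prime, (1 + gg K p) ≤ Real.log X ^ (4 * K) := by
  have hPm : ∀ p ∈ (Ioc z X).filter Nat.Prime, 4 ≤ p := by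
    intro p hp
    rw [mem_filter, mem_Ioc] at hp
    omega
  have h1 : ∏ p ∈ (Ioc z X).filter Nat.Prime, (1 + gg K p) ≤
      ∏ p ∈ (Ioc z X).filter Nat.Prime, Real.exp (2 * K * (1 / (p : ℝ))) :=
    prod_le_prod (fun p hp => by
      have := gg_nonneg (K := K) (p := p) (by have := hPm p hp; omega)
      linarith) fun p hp => gg_le2 (hPm p hp)
  refine h1.trans ?_
  rw [← Real.exp_sum, ← mul_sum]
  have h2 : ∑ p ∈ (Ioc z X).filter Nat.Prime, 1 / (p : ℝ) ≤ 2 * Real.log (Real.log X) := by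
    have h3 : ∑ p ∈ (Ioc z X).filter Nat.Prime, 1 / (p : ℝ) ≤
        ∑ p ∈ (Icc 1 X).filter Nat.Prime, 1 / (p : ℝ) := by
      refine sum_le_sum_of_subset_of_nonneg ?_ fun _ _ _ => by positivity
      refine filter_subset_filter _ fun p hp => ?_
      rw [mem_Ioc] at hp
      rw [mem_Icc]
      omega
    linarith
  have h3 : 2 * (K : ℝ) * ∑ p ∈ (Ioc z X).filter Nat.Prime, 1 / (p : ℝ) ≤
      ((4 * K : ℕ) : ℝ) * Real.log (Real.log X) := by
    push_cast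
    calc 2 * (K : ℝ) * ∑ p ∈ (Ioc z X).filter Nat.Prime, 1 / (p : ℝ) ≤
          2 * K * (2 * Real.log (Real.log X)) := by gcongr
      _ = _ := by ring
  refine (Real.exp_le_exp.2 h3).trans (le_of_eq ?_)
  rw [Real.exp_nat_mul, Real.exp_log (by linarith)]

/-- one nonempty set of primes -/
theorem term_le {W : ℕ} [NeZero W] (z X K : ℕ) (hco : ∀ p : ℕ, p.Prime → z < p → W.Coprime p) (B : ℝ) (hz : 6 ≤ z) (hX2 : 2 ≤ X) (hB0 : 0 ≤ B)
    (hB : ∀ q : ℕ, 1 ≤ q → q ^ 2 ≤ X → ∀ r : ℕ,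
      ∑ n ∈ (Ioc X (2 * X)).filter (fun n : ℕ => n ≡ r [MOD q]), wt n ≤ B * X / Nat.totient q)
    (c d : ZMod W) (E : Finset ℕ) (hE : E ⊆ (Ioc z X).filter Nat.Prime) :
    (∏ p ∈ E, gg K p) * SE X c d (∏ p ∈ E, p) ≤
      B ^ 2 * ((X : ℝ) / Nat.totient W) ^ 2 * (∏ p ∈ E, gg K p / ((p : ℝ) - 1)) +
      4 * Real.log X ^ 2 * ((X : ℝ) / W + 1) * (X / (√(W : ℝ) * √√(X : ℝ))) *
        (∏ p ∈ E, gg K p / √(p : ℝ)) +
      4 * Real.log X ^ 2 * ((X : ℝ) / W + 1) * ∏ p ∈ E, gg K p := by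
  have hEp : ∀ p ∈ E, p.Prime ∧ 6 ≤ p ∧ z < p := by
    intro p hp
    have := hE hp
    rw [mem_filter, mem_Ioc] at this
    exact ⟨this.2, by omega, this.1.1⟩
  set e := ∏ p ∈ E, p with he
  have he0 : 0 < e := prod_pos fun p hp => (hEp p hp).1.pos
  have hWe : W.Coprime e := Nat.Coprime.prod_right fun p hp =>
    hco p (hEp p hp).1 (hEp p hp).2.2
  have hW0 : 0 < W := Nat.pos_of_ne_zero (NeZero.ne W)
  have hWr : (0 : ℝ) < W := by exact_mod_cast hW0
  have her : (0 : ℝ) < e := by exact_mod_cast he0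
  have hXr : (0 : ℝ) < X := by exact_mod_cast (show 0 < X by omega)
  have hg0 : 0 ≤ ∏ p ∈ E, gg K p := prod_nonneg fun p hp =>
    gg_nonneg (by have := (hEp p hp).2.1; omega)
  have ht1 : 0 ≤ B ^ 2 * ((X : ℝ) / Nat.totient W) ^ 2 * (∏ p ∈ E, gg K p / ((p : ℝ) - 1)) := by
    have : 0 ≤ ∏ p ∈ E, gg K p / ((p : ℝ) - 1) := prod_nonneg fun p hp => by
      have h1 := gg_nonneg (K := K) (p := p) (by have := (hEp p hp).2.1; omega)
      have h2 : (6 : ℝ) ≤ p := by exact_mod_cast (hEp p hp).2.1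
      exact div_nonneg h1 (by linarith)
    positivity
  have hg2 : 0 ≤ ∏ p ∈ E, gg K p / √(p : ℝ) := prod_nonneg fun p hp => by
      have h1 := gg_nonneg (K := K) (p := p) (by have := (hEp p hp).2.1; omega)
      positivity
  have ht2 : 0 ≤ 4 * Real.log X ^ 2 * ((X : ℝ) / W + 1) * (X / (√(W : ℝ) * √√(X : ℝ))) *
        (∏ p ∈ E, gg K p / √(p : ℝ)) := by positivity
  have ht3 : 0 ≤ 4 * Real.log X ^ 2 * ((X : ℝ) / W + 1) * ∏ p ∈ E, gg K p := by positivity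
  rcases le_or_gt ((W * e) ^ 2) X with hs | hs
  · have h1 := SE_small X e B he0 hWe hB hB0 hs c d
    have h2 : (∏ p ∈ E, gg K p / ((p : ℝ) - 1)) = (∏ p ∈ E, gg K p) * (1 / Nat.totient e) := by
      rw [prod_div_distrib, he, totient_prod E fun p hp => (hEp p hp).1, mul_one_div]
      congr 1
      push_cast
      refine prod_congr rfl fun p hp => ?_
      rw [Nat.cast_sub (hEp p hp).1.one_lt.le, Nat.cast_one]
    rw [h2] at ht1 ⊢
    have h3 := mul_le_mul_of_nonneg_left h1 hg0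
    linarith
  · have h1 := SE_large X e he0 hWe hX2 c d
    have h2 : (∏ p ∈ E, gg K p / √(p : ℝ)) = (∏ p ∈ E, gg K p) / √(e : ℝ) := by
      rw [prod_div_distrib, he]
      congr 1
      push_cast
      rw [Real.sqrt_eq_rpow, ← Real.finsetProd_rpow _ _ (fun p _ => Nat.cast_nonneg p)]
      refine prod_congr rfl fun p _ => ?_
      rw [Real.sqrt_eq_rpow]
    rw [h2] at ht2 ⊢
    have hs' : (X : ℝ) ≤ ((W : ℝ) * e) ^ 2 := by exact_mod_cast hs.le
    have h3 : √(X : ℝ) ≤ (W : ℝ) * e := by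
      rw [← Real.sqrt_sq (show 0 ≤ (W : ℝ) * e by positivity)]
      exact Real.sqrt_le_sqrt hs'
    have h4 : √√(X : ℝ) ≤ √(W : ℝ) * √(e : ℝ) := by
      rw [← Real.sqrt_mul hWr.le]
      exact Real.sqrt_le_sqrt h3
    have hq : 0 < √√(X : ℝ) := by positivity
    have hw : 0 < √(W : ℝ) := by positivity
    have hee : 0 < √(e : ℝ) := by positivity
    have h5 : (X : ℝ) / (W * e) ≤ X / (√(W : ℝ) * √√(X : ℝ)) / √(e : ℝ) := by
      rw [div_div, div_le_div_iff_of_pos_left hXr (by positivity) (by positivity)]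
      have h6 : (W : ℝ) * e = (√(W : ℝ) * √(e : ℝ)) * (√(W : ℝ) * √(e : ℝ)) := by
        have a := Real.mul_self_sqrt hWr.le
        have b := Real.mul_self_sqrt her.le
        calc (W : ℝ) * e = (√(W : ℝ) * √(W : ℝ)) * (√(e : ℝ) * √(e : ℝ)) := by rw [a, b]
          _ = _ := by ring
      rw [h6]
      calc √(W : ℝ) * √√(X : ℝ) * √(e : ℝ) = √√(X : ℝ) * (√(W : ℝ) * √(e : ℝ)) := by ring
        _ ≤ _ := by gcongr
    have h7 : SE X c d e ≤ 4 * Real.log X ^ 2 * ((X : ℝ) / W + 1) *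
        (X / (√(W : ℝ) * √√(X : ℝ)) / √(e : ℝ) + 1) := by
      refine h1.trans ?_
      rw [← mul_assoc]
      gcongr
    have h8 := mul_le_mul_of_nonneg_left h7 hg0
    have h9 : (∏ p ∈ E, gg K p) * (4 * Real.log X ^ 2 * ((X : ℝ) / W + 1) *
        (X / (√(W : ℝ) * √√(X : ℝ)) / √(e : ℝ) + 1)) =
        4 * Real.log X ^ 2 * ((X : ℝ) / W + 1) * (X / (√(W : ℝ) * √√(X : ℝ))) *
        ((∏ p ∈ E, gg K p) / √(e : ℝ)) +
      4 * Real.log X ^ 2 * ((X : ℝ) / W + 1) * ∏ p ∈ E, gg K p := by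
      field_simp
    linarith

theorem PW_le_exp (z : ℕ) : (PW z : ℝ) ≤ Real.exp (2 * z) := by
  have hW0 : (0 : ℝ) < PW z := by exact_mod_cast Nat.pos_of_ne_zero (NeZero.ne (PW z))
  rw [← Real.log_le_iff_le_exp hW0, log_PW]
  have h := Chebyshev.theta_le_log4_mul_x (x := (z : ℝ)) (Nat.cast_nonneg z)
  have h4 : Real.log 4 ≤ 2 := by
    have : Real.log 4 = 2 * Real.log 2 := by
      rw [show (4 : ℝ) = 2 ^ 2 by norm_num, Real.log_pow]
      norm_num
    rw [this]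
    linarith [Real.log_two_lt_d9]
  have hz : (0 : ℝ) ≤ z := Nat.cast_nonneg z
  nlinarith

/-- the numerical part -/
theorem numeric (z X K : ℕ) (C' W φ L lz : ℝ) (hz : 6 ≤ z) (hC' : 0 < C') (hW : 1 ≤ W) (hφ0 : 0 < φ) (hφ : φ ≤ W)
    (hWe : W ≤ Real.exp (2 * z)) (hL : 1 ≤ L) (hlz : 1 ≤ lz) (hlzL : lz ≤ L) (C : ℝ) (hC : 16 + 4 * C' ≤ C)
    (hX : Real.exp (C * z) * L ^ (16 * K + 24) ≤ X) :
    4 * L ^ 2 * ((X : ℝ) / W + 1) * (X / (√W * √√(X : ℝ))) * Real.exp (C' * z) +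
      4 * L ^ 2 * ((X : ℝ) / W + 1) * L ^ (4 * K) ≤ ((X : ℝ) / φ) ^ 2 * (2 / lz) := by
  have hz0 : (6 : ℝ) ≤ z := by exact_mod_cast hz
  have hC0 : 0 ≤ C := by linarith
  have hX0 : (0 : ℝ) < X := lt_of_lt_of_le (by positivity) hX
  have h8 : (8 : ℝ) ≤ Real.exp (3 * z) := by
    have := Real.add_one_le_exp (3 * (z : ℝ))
    linarith
  have hW0 : 0 < W := by linarith
  -- (b)
  have hb : 8 * L ^ 2 * W * L ^ (4 * K) * lz ≤ X := by
    refine le_trans ?_ hX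
    calc 8 * L ^ 2 * W * L ^ (4 * K) * lz ≤
          Real.exp (3 * z) * L ^ 2 * Real.exp (2 * z) * L ^ (4 * K) * L := by gcongr
      _ = Real.exp (3 * z + 2 * z) * L ^ (4 * K + 3) := by
          rw [Real.exp_add]
          ring
      _ ≤ Real.exp (C * z) * L ^ (16 * K + 24) := by
          refine mul_le_mul (Real.exp_le_exp.2 ?_) (pow_le_pow_right₀ hL (by omega)) (by positivity)
            (by positivity)
          nlinarith
  -- W ≤ X
  have hWX : W ≤ X := by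
    refine le_trans ?_ hb
    have h1 : 1 ≤ L ^ 2 := one_le_pow₀ hL
    have h2 : 1 ≤ L ^ (4 * K) := one_le_pow₀ hL
    calc W = 1 * 1 * W * 1 * 1 := by ring
      _ ≤ 8 * L ^ 2 * W * L ^ (4 * K) * lz := by gcongr; norm_num
  -- (a)
  have hS0 : 0 < √√(X : ℝ) := by positivity
  have hsqW : √W ≤ Real.exp z := by
    rw [Real.sqrt_le_left (by positivity), ← Real.exp_nat_mul]
    simpa using hWe
  have hY : Real.exp (C * z / 4) * L ^ (4 * K + 6) ≤ √√(X : ℝ) := by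
    refine Real.le_sqrt_of_sq_le (Real.le_sqrt_of_sq_le ?_)
    refine le_trans (le_of_eq ?_) hX
    have h1 : Real.exp (C * z) = Real.exp (C * z / 4) ^ 4 := by
      rw [← Real.exp_nat_mul]
      congr 1
      push_cast
      ring
    rw [h1]
    ring
  have ha : 8 * L ^ 2 * √W * Real.exp (C' * z) * lz ≤ √√(X : ℝ) := by
    refine le_trans ?_ hY
    calc 8 * L ^ 2 * √W * Real.exp (C' * z) * lz ≤
          Real.exp (3 * z) * L ^ 2 * Real.exp z * Real.exp (C' * z) * L := by gcongr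
      _ = Real.exp (3 * z + z + C' * z) * L ^ 3 := by
          rw [Real.exp_add, Real.exp_add]
          ring
      _ ≤ Real.exp (C * z / 4) * L ^ (4 * K + 6) := by
          refine mul_le_mul (Real.exp_le_exp.2 ?_) (pow_le_pow_right₀ hL (by omega)) (by positivity)
            (by positivity)
          nlinarith
  have hlz0 : 0 < lz := by linarith
  have h1 : (X : ℝ) / W + 1 ≤ 2 * (X / W) := by
    have : 1 ≤ (X : ℝ) / W := by rwa [one_le_div hW0]
    linarith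
  have hL0 : 0 < L := by linarith
  have hw : 0 < √W := by positivity
  have t1 : 4 * L ^ 2 * ((X : ℝ) / W + 1) * (X / (√W * √√(X : ℝ))) * Real.exp (C' * z) ≤
      ((X : ℝ) / W) ^ 2 * (1 / lz) := by
    calc _ ≤ 4 * L ^ 2 * (2 * ((X : ℝ) / W)) * (X / (√W * √√(X : ℝ))) * Real.exp (C' * z) := by gcongr
      _ = ((X : ℝ) / W) ^ 2 * (8 * L ^ 2 * √W * Real.exp (C' * z) * lz / √√(X : ℝ)) * (1 / lz) := by
          have hh : W = √W * √W := (Real.mul_self_sqrt hW0.le).symm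
          generalize √√(X : ℝ) = s at *
          generalize √W = w at *
          subst hh
          field_simp
          ring
      _ ≤ ((X : ℝ) / W) ^ 2 * 1 * (1 / lz) := by
          gcongr
          rwa [div_le_one hS0]
      _ = _ := by ring
  have t2 : 4 * L ^ 2 * ((X : ℝ) / W + 1) * L ^ (4 * K) ≤ ((X : ℝ) / W) ^ 2 * (1 / lz) := by
    calc _ ≤ 4 * L ^ 2 * (2 * ((X : ℝ) / W)) * L ^ (4 * K) := by gcongr
      _ = ((X : ℝ) / W) ^ 2 * (8 * L ^ 2 * W * L ^ (4 * K) * lz / X) * (1 / lz) := by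
          field_simp
          ring
      _ ≤ ((X : ℝ) / W) ^ 2 * 1 * (1 / lz) := by
          gcongr
          rwa [div_le_one hX0]
      _ = _ := by ring
  calc _ ≤ ((X : ℝ) / W) ^ 2 * (1 / lz) + ((X : ℝ) / W) ^ 2 * (1 / lz) := add_le_add t1 t2
    _ = ((X : ℝ) / W) ^ 2 * (2 / lz) := by ring
    _ ≤ _ := by gcongr

theorem small_X (z K : ℕ) (C : ℝ) (hz : 60 ≤ z) (hK : 8 * K ≤ z) (hC : 2 ≤ C) :
    ¬ (Real.exp (C * z) * Real.log ((2 : ℕ) : ℝ) ^ (16 * K + 24) ≤ ((2 : ℕ) : ℝ)) := by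
  intro hX
  have hz0 : (60 : ℝ) ≤ z := by exact_mod_cast hz
  have h1 : (1 / 2 : ℝ) ≤ Real.log ((2 : ℕ) : ℝ) := by
    push_cast
    linarith [Real.log_two_gt_d9]
  have h2 : (1 / 2 : ℝ) ^ (2 * z + 24) ≤ Real.log ((2 : ℕ) : ℝ) ^ (16 * K + 24) := by
    calc (1 / 2 : ℝ) ^ (2 * z + 24) ≤ (1 / 2 : ℝ) ^ (16 * K + 24) :=
          pow_le_pow_of_le_one (by norm_num) (by norm_num) (by omega)
      _ ≤ _ := by gcongr
  have h0 : Real.exp (2 * (z : ℝ)) ≤ Real.exp (C * z) := Real.exp_le_exp.2 (by nlinarith)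
  have h3 : Real.exp (2 * (z : ℝ)) * (1 / 2 : ℝ) ^ (2 * z + 24) ≤ 2 := by
    refine le_trans ?_ (hX.trans (by norm_num))
    exact mul_le_mul h0 h2 (by positivity) (by positivity)
  have h4 : (7 : ℝ) ^ z ≤ Real.exp (2 * (z : ℝ)) := by
    have h5 : Real.exp (2 * (z : ℝ)) = Real.exp 2 ^ z := by
      rw [← Real.exp_nat_mul]
      congr 1
      ring
    rw [h5]
    have h6 : (7 : ℝ) ≤ Real.exp 2 := by
      have h7 : Real.exp 2 = Real.exp 1 * Real.exp 1 := by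
        rw [← Real.exp_add]
        norm_num
      rw [h7]
      nlinarith [Real.exp_one_gt_d9]
    gcongr
  have h5 : (1 / 2 : ℝ) ^ (2 * z + 24) = (1 / 4) ^ z * (1 / 2 ^ 24) := by
    rw [pow_add, pow_mul]
    norm_num
  have h6 : (7 : ℝ) ^ z * ((1 / 4) ^ z * (1 / 2 ^ 24)) ≤ 2 := by
    refine le_trans ?_ h3
    rw [h5]
    gcongr
  have h7 : (7 : ℝ) ^ z * ((1 / 4) ^ z * (1 / 2 ^ 24)) = (7 / 4) ^ z / 2 ^ 24 := by
    rw [← mul_assoc, ← mul_pow]
    norm_num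
    ring
  have h8 : (7 / 4 : ℝ) ^ 60 ≤ (7 / 4) ^ z := pow_le_pow_right₀ (by norm_num) hz
  rw [h7] at h6
  have h9 : (2 : ℝ) ^ 26 ≤ (7 / 4 : ℝ) ^ 60 := by norm_num
  have h10 : (7 / 4 : ℝ) ^ z ≤ 2 ^ 25 := by
    rw [div_le_iff₀ (by positivity)] at h6
    linarith
  linarith

theorem t_HSB : S_HSB := by
  rintro ⟨B, X₀, hB0, hBT⟩ ⟨C', hC', hSQ⟩
  obtain ⟨C₂, hC₂⟩ := Pool.Agent.Helper256.KM.mertens_inv
  have hev : ∀ᶠ z : ℕ in atTop, 60 ≤ z ∧ X₀ ≤ z ∧ 1 ≤ Real.log z ∧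
      C' ≤ Real.log z ∧ C₂ ≤ Real.log (2 * (z : ℝ)) := by
    have h1 : Tendsto (fun z : ℕ => Real.log z) atTop atTop :=
      Real.tendsto_log_atTop.comp tendsto_natCast_atTop_atTop
    have h2 : Tendsto (fun z : ℕ => Real.log (2 * (z : ℝ))) atTop atTop :=
      Real.tendsto_log_atTop.comp (tendsto_natCast_atTop_atTop.const_mul_atTop two_pos)
    filter_upwards [eventually_ge_atTop 60, eventually_ge_atTop X₀, h1.eventually_ge_atTop 1,
      h1.eventually_ge_atTop C', h2.eventually_ge_atTop C₂] with z a b c d e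
    exact ⟨a, b, c, d, e⟩
  obtain ⟨z₀, hz₀⟩ := hev.exists_forall_of_atTop
  refine ⟨16 + 4 * C' + B ^ 2 * C' + 2, z₀, by nlinarith [mul_nonneg (sq_nonneg B) hC'.le], ?_⟩
  intro z X K hz hK hX c _ d _
  obtain ⟨hz60, hzX, hlog1, hlogC, hlogC2⟩ := hz₀ z hz
  have hz60r : (60 : ℝ) ≤ z := by exact_mod_cast hz60
  have hBC : 0 ≤ B ^ 2 * C' := by positivity
  set C : ℝ := 16 + 4 * C' + B ^ 2 * C' + 2 with hC
  have hW0 : (0 : ℝ) < PW z := by exact_mod_cast Nat.pos_of_ne_zero (NeZero.ne (PW z))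
  have hW1 : (1 : ℝ) ≤ PW z := by exact_mod_cast Nat.pos_of_ne_zero (NeZero.ne (PW z))
  have hlog0 : 0 < Real.log z := by linarith
  have hth : ∀ x : ZMod (PW z), 0 ≤ th X x := fun x => sum_nonneg fun n _ => wt_nn n
  have hrhs : 0 ≤ th X c * th X d + ((X : ℝ) / Nat.totient (PW z)) ^ 2 * (C / Real.log z) := by
    have := hth c
    have := hth d
    have : 0 ≤ C := by linarith
    positivity
  rcases le_or_gt X 1 with hX1 | hX1
  · refine le_trans (le_of_eq ?_) hrhs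
    refine sum_eq_zero fun n hn => sum_eq_zero fun m hm => ?_
    exfalso
    rw [mem_filter, mem_Ioc] at hn hm
    exact hm.2.2 (by omega)
  rcases Nat.lt_or_ge X 3 with hX3 | hX3
  · exfalso
    have hX2 : X = 2 := by omega
    subst hX2
    exact small_X z K C hz60 hK (by linarith) hX
  set L := Real.log X with hL
  have hX0 : (0 : ℝ) < X := by exact_mod_cast (show 0 < X by omega)
  have hL1 : 1 ≤ L := by
    rw [hL, Real.le_log_iff_exp_le hX0]
    have : (3 : ℝ) ≤ X := by exact_mod_cast hX3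
    linarith [Real.exp_one_lt_d9]
  have hXe : Real.exp (2 * (z : ℝ)) ≤ X := by
    refine le_trans ?_ hX
    calc Real.exp (2 * (z : ℝ)) ≤ Real.exp (C * z) := Real.exp_le_exp.2 (by nlinarith)
      _ ≤ _ := le_mul_of_one_le_right (by positivity) (one_le_pow₀ hL1)
  have hLz : 2 * (z : ℝ) ≤ L := by
    rw [hL, Real.le_log_iff_exp_le hX0]
    exact hXe
  have hX₀ : X₀ ≤ X := by
    have h1 : (z : ℝ) ≤ X := by
      refine le_trans ?_ hXe
      have := Real.add_one_le_exp (2 * (z : ℝ))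
      linarith
    have h2 : z ≤ X := by exact_mod_cast h1
    omega
  have hloglog : C₂ ≤ Real.log L := hlogC2.trans (Real.log_le_log (by linarith) hLz)
  have hM : ∑ p ∈ (Icc 1 X).filter Nat.Prime, 1 / (p : ℝ) ≤ Real.log (Real.log X) + C₂ := by
    have := (abs_le.1 (hC₂ X hX3)).2
    linarith
  have hf1 := F1 z X K (by omega) hK hlogC (hSQ z X (by omega)).1
  have hf2 := F2 z X K (by omega) hK hC' (hSQ z X (by omega)).2
  have hf3 := F3 z X K (by omega) hM (by rw [← hL]; exact hloglog) hL1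
  rw [← hL] at hf3
  have hzL : Real.log z ≤ L := by
    have := Real.log_le_self (show (0 : ℝ) ≤ z by linarith)
    linarith
  have hB := fun q hq hqX r => hBT X q hX₀ hq hqX r
  refine (total_le z X K (by omega) c d).trans ?_
  set P := (Ioc z X).filter Nat.Prime with hP
  rw [← add_sum_erase _ _ (empty_mem_powerset P)]
  rw [prod_empty, prod_empty, one_mul]
  have hSE1 := SE_one X c d
  set φ : ℝ := (Nat.totient (PW z) : ℝ) with hφ
  have hφ0 : 0 < φ := by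
    rw [hφ]
    exact_mod_cast Nat.totient_pos.2 (Nat.pos_of_ne_zero (NeZero.ne (PW z)))
  have hφW : φ ≤ PW z := by
    rw [hφ]
    exact_mod_cast Nat.totient_le (PW z)
  have hsum : ∑ E ∈ P.powerset.erase ∅, (∏ p ∈ E, gg K p) * SE X c d (∏ p ∈ E, p) ≤
      B ^ 2 * ((X : ℝ) / φ) ^ 2 * (∏ p ∈ P, (1 + gg K p / ((p : ℝ) - 1)) - 1) +
      4 * L ^ 2 * ((X : ℝ) / PW z + 1) * (X / (√(PW z : ℝ) * √√(X : ℝ))) *
        (∏ p ∈ P, (1 + gg K p / √(p : ℝ))) +
      4 * L ^ 2 * ((X : ℝ) / PW z + 1) * ∏ p ∈ P, (1 + gg K p) := by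
    have hPm : ∀ p ∈ P, 6 ≤ p := by
      intro p hp
      rw [hP, mem_filter, mem_Ioc] at hp
      omega
    have g1 : ∏ p ∈ P, (1 + gg K p / ((p : ℝ) - 1)) - 1 =
        ∑ E ∈ P.powerset.erase ∅, ∏ p ∈ E, gg K p / ((p : ℝ) - 1) := by
      rw [prod_one_add, ← add_sum_erase _ _ (empty_mem_powerset P), prod_empty]
      ring
    have g2 : ∑ E ∈ P.powerset.erase ∅, ∏ p ∈ E, gg K p / √(p : ℝ) ≤
        ∏ p ∈ P, (1 + gg K p / √(p : ℝ)) := by
      rw [prod_one_add]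
      refine sum_le_sum_of_subset_of_nonneg (erase_subset _ _) fun E hE _ => prod_nonneg fun p hp => ?_
      have := gg_nonneg (K := K) (p := p) (by have := hPm p (mem_powerset.1 hE hp); omega)
      positivity
    have g3 : ∑ E ∈ P.powerset.erase ∅, ∏ p ∈ E, gg K p ≤
        ∏ p ∈ P, (1 + gg K p) := by
      rw [prod_one_add]
      refine sum_le_sum_of_subset_of_nonneg (erase_subset _ _) fun E hE _ => prod_nonneg fun p hp => ?_
      exact gg_nonneg (K := K) (p := p) (by have := hPm p (mem_powerset.1 hE hp); omega)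
    rw [g1]
    calc _ ≤ ∑ E ∈ P.powerset.erase ∅, (B ^ 2 * ((X : ℝ) / φ) ^ 2 * (∏ p ∈ E, gg K p / ((p : ℝ) - 1)) +
      4 * L ^ 2 * ((X : ℝ) / PW z + 1) * (X / (√(PW z : ℝ) * √√(X : ℝ))) *
        (∏ p ∈ E, gg K p / √(p : ℝ)) +
      4 * L ^ 2 * ((X : ℝ) / PW z + 1) * ∏ p ∈ E, gg K p) := by
          refine sum_le_sum fun E hE => ?_
          rw [mem_erase, mem_powerset] at hE
          exact term_le z X K (PW_coprime z) B (by omega) (by omega) hB0.le hB c d E hE.2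
      _ = B ^ 2 * ((X : ℝ) / φ) ^ 2 * ∑ E ∈ P.powerset.erase ∅, (∏ p ∈ E, gg K p / ((p : ℝ) - 1)) +
      4 * L ^ 2 * ((X : ℝ) / PW z + 1) * (X / (√(PW z : ℝ) * √√(X : ℝ))) *
        ∑ E ∈ P.powerset.erase ∅, (∏ p ∈ E, gg K p / √(p : ℝ)) +
      4 * L ^ 2 * ((X : ℝ) / PW z + 1) * ∑ E ∈ P.powerset.erase ∅, ∏ p ∈ E, gg K p := by
          rw [sum_add_distrib, sum_add_distrib, ← mul_sum, ← mul_sum, ← mul_sum]
      _ ≤ _ := by gcongr
  have hnum := numeric z X K C' (PW z) φ L (Real.log z) (by omega) hC' hW1 hφ0 hφW (PW_le_exp z) hL1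
    hlog1 hzL C (by linarith) hX
  have hm1 : B ^ 2 * ((X : ℝ) / φ) ^ 2 * (∏ p ∈ P, (1 + gg K p / ((p : ℝ) - 1)) - 1) ≤
      B ^ 2 * ((X : ℝ) / φ) ^ 2 * (C' / Real.log z) := by gcongr
  have hm2 : 4 * L ^ 2 * ((X : ℝ) / PW z + 1) * (X / (√(PW z : ℝ) * √√(X : ℝ))) *
        (∏ p ∈ P, (1 + gg K p / √(p : ℝ))) ≤
      4 * L ^ 2 * ((X : ℝ) / PW z + 1) * (X / (√(PW z : ℝ) * √√(X : ℝ))) * Real.exp (C' * z) := by gcongr
  have hm3 : 4 * L ^ 2 * ((X : ℝ) / PW z + 1) * ∏ p ∈ P, (1 + gg K p) ≤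
      4 * L ^ 2 * ((X : ℝ) / PW z + 1) * L ^ (4 * K) := by gcongr
  have hfin : B ^ 2 * ((X : ℝ) / φ) ^ 2 * (C' / Real.log z) + ((X : ℝ) / φ) ^ 2 * (2 / Real.log z) ≤
      ((X : ℝ) / φ) ^ 2 * (C / Real.log z) := by
    have e1 : B ^ 2 * ((X : ℝ) / φ) ^ 2 * (C' / Real.log z) + ((X : ℝ) / φ) ^ 2 * (2 / Real.log z) =
        ((X : ℝ) / φ) ^ 2 * ((B ^ 2 * C' + 2) / Real.log z) := by ring
    rw [e1]
    have : B ^ 2 * C' + 2 ≤ C := by linarith
    gcongr
  linarith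

end Pool.Agent.Q18.LS

theorem Pool.Agent.Q145.LS.t_HSB : Pool.Agent.Q145.LS.S_HSB := Pool.Agent.Q18.LS.t_HSB
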